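import Pool.Agent.P.MP_ced62d_co.Main

open Pool.Agent.P.MP_ced62d_co

theorem Pool.Agent.Results.MP_ced62d_co.Counterexample.result :
    ∃ H : SimpleGraph (Fin 6), (∀ a b, H.Adj a b ↔ a.val / 2 ≠ b.val / 2) ∧
      ∀ C : ℕ, ∃ (n : ℕ) (G : SimpleGraph (Fin n)),
        (∀ v, (1 - 1 / ordCritChrom H) * (n : ℝ) ≤ ((G.neighborSet v).ncard : ℝ)) ∧
        ∀ T : Set (Fin 6 ↪o Fin n), IsOrdTiling H G T → C < (uncoveredVerts T).ncard :=
  Pool.Agent.P.MP_ced62d_co.main
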