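import Pool.Agent.P.MP_ced62d_co.Path

open Pool.Agent.P.MP_ced62d_co

theorem Pool.Agent.Results.MP_ced62d_co.PathCounterexample.result :
    ∃ H : SimpleGraph (Fin 9), Nonempty (H ≃g SimpleGraph.pathGraph 9) ∧
      ∀ n : ℕ, 16 ≤ n → ∃ G : SimpleGraph (Fin n),
        (∀ v, (1 - 1 / ordCritChrom H) * (n : ℝ) ≤ ((G.neighborSet v).ncard : ℝ)) ∧
        ∀ T : Set (Fin 9 ↪o Fin n), IsOrdTiling H G T →
          3 * Nat.log 2 n ≤ (uncoveredVerts T).ncard + 12 :=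
  Pool.Agent.P.MP_ced62d_co.path_main
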